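import Pool.Agent.Helper99.SZ.Stmts4
import Pool.Agent.Helper33.SZ.CNT

/-! MP_bde085_nt: module QCN, counting `S`-units in quadratic fields. -/

set_option autoImplicit false

namespace Pool.Helper99.SZ

open NumberField

/-- at most two places -/
theorem qcn_places (K : Type) [Field K] [NumberField K] (h : Module.finrank ℚ K = 2) :
    Fintype.card (InfinitePlace K) ≤ 2 := by
  classical
  have h1 := InfinitePlace.card_add_two_mul_card_eq_rank K
  have h2 : Fintype.card (InfinitePlace K) =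
      InfinitePlace.nrRealPlaces K + InfinitePlace.nrComplexPlaces K :=
    InfinitePlace.card_eq_nrRealPlaces_add_nrComplexPlaces K
  omega

/-- elements of bounded size: finiteness -/
theorem qcn_fin {K : Type} [Field K] [NumberField K] {m n : ℕ} (σ : Fin 2 → (K →+* ℂ))
    (P : Fin m → Ideal (𝓞 K)) (hP : ∀ j, P j ≠ ⊥) (κ : 𝓞 K) (hκ : κ ≠ 0) (nn : Fin m → ℕ)
    (s : Fin n → Kˣ) (α : Fin n → Fin m → ℤ) (C A ρ : ℝ) (hC : 0 ≤ C) (hA : 1 ≤ A)
    (hCB : CBQ σ P s α C) :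
    {a : ℤ × (Fin n → ℤ) | nrmQ σ P κ nn s α A a ≤ ρ}.Finite := by
  classical
  set R : ℝ := max ρ (C * (∑ k, (ρ + ρ * |Real.log ‖σ k (κ : K)‖|) +
    ∑ j, (ρ + ρ * (nn j * Real.log (Ideal.absNorm (P j)))))) with hR
  set N : ℤ := ⌈R⌉ with hN
  have hsub : {a : ℤ × (Fin n → ℤ) | nrmQ σ P κ nn s α A a ≤ ρ} ⊆
      (Set.Icc (-N) N) ×ˢ (Set.pi Set.univ (fun _ : Fin n => Set.Icc (-N) N)) := by
    intro a ha
    have ha' : nrmQ σ P κ nn s α A a ≤ ρ := ha
    have hx : ∀ k ∈ Finset.univ, 0 ≤ |Real.log ‖σ k (gelS κ s a)‖| := fun k _ => abs_nonneg _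
    have hy : ∀ j ∈ Finset.univ, 0 ≤ |((a.1 * nn j + ∑ i, a.2 i * α i j : ℤ) : ℝ)| *
        Real.log (Ideal.absNorm (P j)) := fun j _ => mul_nonneg (abs_nonneg _) (cnt_NP _ (hP j))
    have h1 := Finset.sum_nonneg hx
    have h2 := Finset.sum_nonneg hy
    have h3 : 0 ≤ A * |(a.1 : ℝ)| := mul_nonneg (by linarith) (abs_nonneg _)
    unfold nrmQ at ha'
    have ha1 : |(a.1 : ℝ)| ≤ ρ := by
      have h4 : |(a.1 : ℝ)| ≤ A * |(a.1 : ℝ)| := by
        have := mul_le_mul_of_nonneg_right hA (abs_nonneg (a.1 : ℝ))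
        linarith
      have h5 := abs_nonneg (a.1 : ℝ)
      nlinarith
    have hρ : 0 ≤ ρ := (abs_nonneg _).trans ha1
    have hl : ∀ k, |Real.log ‖σ k (gelS κ s a)‖| ≤ ρ := by
      intro k
      have := Finset.single_le_sum hx (Finset.mem_univ k)
      nlinarith
    have hm : ∀ j, |((a.1 * nn j + ∑ i, a.2 i * α i j : ℤ) : ℝ)| *
        Real.log (Ideal.absNorm (P j)) ≤ ρ := by
      intro j
      have := Finset.single_le_sum hy (Finset.mem_univ j)
      nlinarith
    have hz : ∀ i, |((a.2 i : ℤ) : ℝ)| ≤ C * (∑ k, (ρ + ρ * |Real.log ‖σ k (κ : K)‖|) +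
        ∑ j, (ρ + ρ * (nn j * Real.log (Ideal.absNorm (P j))))) := by
      intro i
      refine (hCB a.2 i).trans (mul_le_mul_of_nonneg_left (add_le_add ?_ ?_) hC)
      · apply Finset.sum_le_sum
        intro k _
        have h4 := cnt_log (σ k) κ hκ s a
        have h5 : Real.log ‖σ k (∏ i, ((s i : Kˣ) : K) ^ (a.2 i))‖ =
            Real.log ‖σ k (gelS κ s a)‖ - (a.1 : ℝ) * Real.log ‖σ k (κ : K)‖ := by linarith
        rw [h5]
        refine (abs_sub _ _).trans (add_le_add (hl k) ?_)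
        rw [abs_mul]
        exact mul_le_mul_of_nonneg_right ha1 (abs_nonneg _)
      · apply Finset.sum_le_sum
        intro j _
        have h4 : ((∑ i, a.2 i * α i j : ℤ) : ℝ) =
            ((a.1 * nn j + ∑ i, a.2 i * α i j : ℤ) : ℝ) - (a.1 : ℝ) * nn j := by
          push_cast
          ring
        rw [h4]
        have h5 := cnt_NP _ (hP j)
        have h6 : |((a.1 * nn j + ∑ i, a.2 i * α i j : ℤ) : ℝ) - (a.1 : ℝ) * nn j| ≤
            |((a.1 * nn j + ∑ i, a.2 i * α i j : ℤ) : ℝ)| + ρ * nn j := by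
          refine (abs_sub _ _).trans (add_le_add le_rfl ?_)
          rw [abs_mul, abs_of_nonneg (Nat.cast_nonneg _ : (0 : ℝ) ≤ (nn j : ℝ))]
          exact mul_le_mul_of_nonneg_right ha1 (Nat.cast_nonneg _)
        calc _ ≤ (|((a.1 * nn j + ∑ i, a.2 i * α i j : ℤ) : ℝ)| + ρ * nn j) *
              Real.log (Ideal.absNorm (P j)) := mul_le_mul_of_nonneg_right h6 h5
          _ = |((a.1 * nn j + ∑ i, a.2 i * α i j : ℤ) : ℝ)| * Real.log (Ideal.absNorm (P j)) +
              ρ * (nn j * Real.log (Ideal.absNorm (P j))) := by ring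
          _ ≤ _ := add_le_add (hm j) le_rfl
    have hint : ∀ x : ℤ, |(x : ℝ)| ≤ R → x ∈ Set.Icc (-N) N := by
      intro x hx
      have h4 : |(x : ℝ)| ≤ (N : ℝ) := hx.trans (Int.le_ceil R)
      obtain ⟨h5, h6⟩ := abs_le.1 h4
      refine ⟨?_, ?_⟩
      · exact_mod_cast h5
      · exact_mod_cast h6
    refine ⟨hint _ (ha1.trans (le_max_left _ _)), ?_⟩
    intro i _
    exact hint _ ((hz i).trans (le_max_right _ _))
  exact ((Set.finite_Icc _ _).prod (Set.Finite.pi (fun _ => Set.finite_Icc _ _))).subset hsub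

theorem qcn_main (h4 : ST_SUF) (m : ℕ) (C1 C2 C : ℝ) (hC1 : 1 ≤ C1) (hC2 : 1 ≤ C2)
    (hCC1 : C1 ≤ C) (D : ℝ)
    (hCC : 12 * C2 * (40 : ℝ) ^ (3 + m) ≤ D)
    (H1 : ∀ (K : Type) [Field K] [NumberField K],
    Module.finrank ℚ K = 2 → ∀ σ : Fin 2 → (K →+* ℂ), Function.Injective σ →
    ∀ P : Fin m → Ideal (𝓞 K), Function.Injective P → (∀ j, (P j).IsPrime ∧ P j ≠ ⊥) →
    ∀ G1 : Subgroup Kˣ, (∀ u ∈ G1, ∃ a, SU P a u) →
    ∃ (n : ℕ) (s : Fin n → Kˣ) (α : Fin n → Fin m → ℤ),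
      n + 1 ≤ Fintype.card (InfinitePlace K) + m ∧ (∀ i, s i ∈ G1) ∧ (∀ i, SU P (α i) (s i)) ∧
      (∀ u ∈ G1, ∃ (ζ : Kˣ) (z : Fin n → ℤ), ζ ^ 12 = 1 ∧ u = ζ * ∏ i, s i ^ (z i)) ∧
      CBQ σ P s α C1)
    (H2 : ∀ (K : Type) [Field K] [NumberField K],
    Module.finrank ℚ K = 2 → ∀ P : Fin m → Ideal (𝓞 K), Function.Injective P →
    (∀ j, (P j).IsPrime ∧ P j ≠ ⊥) → ∀ κ : 𝓞 K, κ ≠ 0 → ∀ (nn : Fin m → ℕ) (𝔞 : Ideal (𝓞 K)),
    Ideal.span {κ} = 𝔞 * ∏ j, P j ^ nn j → ∀ A h ν ρ : ℝ, 1 ≤ h →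
    Real.log |(NumberField.discr K : ℝ)| ≤ h → 1 ≤ A → Real.log (Ideal.absNorm 𝔞) ≤ A →
    ((BK.ID K (2 * Real.sqrt |(NumberField.discr K : ℝ)|)).ncard : ℝ) ≤ ν →
    C2 * (A + h + ∑ j, Real.log (Ideal.absNorm (P j))) ≤ ρ →
    (TS1 P κ nn A ρ).Finite ∧ ρ ^ (Fintype.card (InfinitePlace K) + m) ≤
      C2 * ν * A * h ^ (Fintype.card (InfinitePlace K) - 1) *
        (∏ j, Real.log (Ideal.absNorm (P j))) * ((TS1 P κ nn A ρ).ncard : ℝ)) :
    ∀ (K : Type) [Field K] [NumberField K],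
    Module.finrank ℚ K = 2 → ∀ σ : Fin 2 → (K →+* ℂ), Function.Injective σ →
    ∀ P : Fin m → Ideal (𝓞 K), Function.Injective P → (∀ j, (P j).IsPrime ∧ P j ≠ ⊥) →
    ∀ κ : 𝓞 K, κ ≠ 0 → ∀ (nn : Fin m → ℕ) (𝔞 : Ideal (𝓞 K)),
    Ideal.span {κ} = 𝔞 * ∏ j, P j ^ nn j →
    ∀ G1 : Subgroup Kˣ, (∀ u ∈ G1, ∃ a, SU P a u) → ∀ q0 : ℕ,
    PIG P G1 q0 →
    ∃ (n : ℕ) (s : Fin n → Kˣ) (α : Fin n → Fin m → ℤ),
      n + 1 ≤ Fintype.card (InfinitePlace K) + m ∧ (∀ i, s i ∈ G1) ∧ (∀ i, SU P (α i) (s i)) ∧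
      CBQ σ P s α C ∧ ∀ A h ν : ℝ, 1 ≤ h → Real.log |(NumberField.discr K : ℝ)| ≤ h → 1 ≤ A →
      Real.log (Ideal.absNorm 𝔞) ≤ A →
      ((BK.ID K (2 * Real.sqrt |(NumberField.discr K : ℝ)|)).ncard : ℝ) ≤ ν →
      ∃ ρ0 : ℝ, ∀ ρ, ρ0 ≤ ρ →
      ρ ^ (Fintype.card (InfinitePlace K) + m) ≤
        D * q0 * ν * A * h ^ 2 *
        (∏ j, Real.log (Ideal.absNorm (P j))) *
        ({a : ℤ × (Fin n → ℤ) | nrmQ σ P κ nn s α A a ≤ ρ}.ncard : ℝ) := by
  classical
  set B : ℝ := 40 with hB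
  have hB1 : 1 ≤ B := by
    rw [hB]
    norm_num
  have hBp : 1 ≤ B ^ (3 + m) := one_le_pow₀ hB1
  have hBp' : B ≤ B ^ (3 + m) := by
    calc B = B ^ 1 := (pow_one B).symm
      _ ≤ B ^ (3 + m) := pow_le_pow_right₀ hB1 (by omega)
  intro K _ _ hK σ hσ P hPi hP κ hκ nn 𝔞 h𝔞 G1 hG2 q0 hq0
  obtain ⟨n, s, α, hn, hsG, hsS, hgen, hCB⟩ := H1 K hK σ hσ P hPi hP G1 hG2
  obtain ⟨S1, S2, S3, S4, -, -⟩ := h4 K m P hPi hP
  have hP0 : ∀ j, P j ≠ ⊥ := fun j => (hP j).2
  have hlogP : ∀ j, 0 ≤ Real.log (Ideal.absNorm (P j)) := fun j => cnt_NP _ (hP0 j)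
  have hS0 : SU P 0 1 := (S4 1).2 ⟨1, by simp⟩
  have hCBC : CBQ σ P s α C := by
    intro z i
    refine (hCB z i).trans (mul_le_mul_of_nonneg_right hCC1 ?_)
    · apply add_nonneg
      · exact Finset.sum_nonneg fun k _ => abs_nonneg _
      · exact Finset.sum_nonneg fun j _ => mul_nonneg (abs_nonneg _) (hlogP j)
  refine ⟨n, s, α, hn, hsG, hsS, hCBC, ?_⟩
  intro A h ν hh hdisc hA h𝔞A hν
  refine ⟨40 * (C2 * (A + h + ∑ j, Real.log (Ideal.absNorm (P j)))), ?_⟩
  intro ρ hρC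
  have hsum0 : 0 ≤ ∑ j, Real.log (Ideal.absNorm (P j)) := Finset.sum_nonneg fun j _ => hlogP j
  have hX : 0 ≤ A + h + ∑ j, Real.log (Ideal.absNorm (P j)) := by linarith
  have hρ0 : 0 ≤ ρ := by
    refine le_trans ?_ hρC
    positivity
  have hB0 : 0 < B := by linarith
  set ρ' : ℝ := ρ / B with hρ'
  have hρρ' : B * ρ' = ρ := by
    rw [hρ']
    field_simp
  have hρ'0 : 0 ≤ ρ' := div_nonneg hρ0 hB0.le
  have hcond : C2 * (A + h + ∑ j, Real.log (Ideal.absNorm (P j))) ≤ ρ' := by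
    rw [hρ', le_div_iff₀ hB0, hB]
    linarith
  obtain ⟨hfin, hPHS⟩ := H2 K hK P hPi hP κ hκ nn 𝔞 h𝔞 A h ν ρ' hh hdisc hA h𝔞A hν hcond
  -- the target set
  have hfinS := qcn_fin σ P hP0 κ hκ nn s α C1 A ρ (by linarith) hA hCB
  -- counting
  have hcount : (TS1 P κ nn A ρ').ncard ≤
      12 * q0 * {a : ℤ × (Fin n → ℤ) | nrmQ σ P κ nn s α A a ≤ ρ}.ncard := by
    have : Fintype ↥(TS1 P κ nn A ρ') := hfin.fintype
    obtain ⟨F, hF1, hF2⟩ := hq0 (↥(TS1 P κ nn A ρ')) (fun x => x.1.2) (by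
      intro x
      obtain ⟨_, _, a, ha, _⟩ := x.2
      exact ⟨a, ha⟩)
    have hcard : (TS1 P κ nn A ρ').ncard = Fintype.card ↥(TS1 P κ nn A ρ') := by
      rw [← Nat.card_eq_fintype_card]
      rfl
    rw [hcard]
    refine hF1.trans ?_
    have hFc : F.card ≤ 12 * {a : ℤ × (Fin n → ℤ) | nrmQ σ P κ nn s α A a ≤ ρ}.ncard := by
      rcases F.eq_empty_or_nonempty with rfl | ⟨x0, hx0⟩
      · simp
      · have hz : ∀ x : ↥(TS1 P κ nn A ρ'), ∃ z : Fin n → ℤ, x ∈ F →
            ∃ ζ : Kˣ, ζ ^ 12 = 1 ∧ x.1.2 * (x0.1.2)⁻¹ = ζ * ∏ i, s i ^ (z i) := by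
          intro x
          by_cases hx : x ∈ F
          · obtain ⟨ζ, z, hz⟩ := hgen _ (hF2 x hx x0 hx0)
            exact ⟨z, fun _ => ⟨ζ, hz⟩⟩
          · exact ⟨0, fun h => absurd h hx⟩
        choose Z hZ using hz
        have hmem : ∀ x ∈ F, ((x.1.1 - x0.1.1, Z x) : ℤ × (Fin n → ℤ)) ∈
            {a : ℤ × (Fin n → ℤ) | nrmQ σ P κ nn s α A a ≤ ρ} := by
          intro x hx
          obtain ⟨hxA, hxσ, a, haS, haP⟩ := x.2
          obtain ⟨hyA, hyσ, b, hbS, hbP⟩ := x0.2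
          have hprodS := cnt_prod S1 S2 hS0 hsS (Z x)
          have hquo : SU P (a + -b) (x.1.2 * (x0.1.2)⁻¹) := S1 _ _ _ _ haS (S2 _ _ hbS)
          obtain ⟨ζ, hζ, hζx⟩ := hZ x hx
          have hexp : a + -b = fun j => ∑ i, Z x i * α i j := by
            have h5 := S1 _ _ _ _ hquo (S2 _ _ hprodS)
            rw [hζx, mul_assoc, mul_inv_cancel, mul_one] at h5
            have h6 := cnt_pow S1 S2 hS0 h5 12
            have h7 : ζ ^ (12 : ℤ) = 1 := by
              rw [← hζ]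
              norm_cast
            rw [h7] at h6
            have h8 := S3 _ _ _ h6 hS0
            funext j
            have h9 := congrFun h8 j
            simp only [Pi.smul_apply, Pi.add_apply, Pi.neg_apply, Pi.zero_apply,
              smul_eq_mul] at h9
            show a j + -b j = _
            omega
          have hval : ∀ τ : K →+* ℂ, ‖τ (∏ i, ((s i : Kˣ) : K) ^ (Z x i))‖ =
              ‖τ (x.1.2 : K)‖ / ‖τ (x0.1.2 : K)‖ := by
            intro τ
            have h5 : ((x.1.2 * (x0.1.2)⁻¹ : Kˣ) : K) =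
                (ζ : K) * ∏ i, ((s i : Kˣ) : K) ^ (Z x i) := by
              rw [hζx, Units.val_mul, Units.coe_prod]
              congr 1
              refine Finset.prod_congr rfl fun i _ => ?_
              rw [Units.val_zpow_eq_zpow_val]
            have h6 : ‖τ ((x.1.2 * (x0.1.2)⁻¹ : Kˣ) : K)‖ =
                ‖τ (x.1.2 : K)‖ / ‖τ (x0.1.2 : K)‖ := by
              rw [Units.val_mul, Units.val_inv_eq_inv_val, map_mul, map_inv₀, norm_mul, norm_inv]
              rfl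
            have h7 : ‖τ (ζ : K)‖ = 1 := by
              have h8 : ‖τ (ζ : K)‖ ^ 12 = 1 := by
                rw [← norm_pow, ← map_pow, ← Units.val_pow_eq_pow_val, hζ, Units.val_one, map_one,
                  norm_one]
              exact (pow_eq_one_iff_of_nonneg (norm_nonneg _) (by norm_num)).1 h8
            rw [← h6, h5, map_mul, norm_mul, h7, one_mul]
          have hne : ∀ (τ : K →+* ℂ) (u : Kˣ), ‖τ (u : K)‖ ≠ 0 := by
            intro τ u
            rw [norm_ne_zero_iff, Ne, map_eq_zero]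
            exact u.ne_zero
          change nrmQ σ P κ nn s α A (x.1.1 - x0.1.1, Z x) ≤ ρ
          unfold nrmQ
          have hp1 : ∑ k, |Real.log ‖σ k (gelS κ s (x.1.1 - x0.1.1, Z x))‖| ≤ 4 * ρ' := by
            have h5 : ∀ k ∈ Finset.univ, |Real.log ‖σ k (gelS κ s (x.1.1 - x0.1.1, Z x))‖| ≤
                2 * ρ' := by
              intro k _
              rw [cnt_log (σ k) κ hκ s]
              dsimp only
              rw [hval, Real.log_div (hne _ _) (hne _ _)]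
              have h6 : ((x.1.1 - x0.1.1 : ℤ) : ℝ) * Real.log ‖σ k (κ : K)‖ +
                  (Real.log ‖σ k (x.1.2 : K)‖ - Real.log ‖σ k (x0.1.2 : K)‖) =
                  (Real.log ‖σ k (x.1.2 : K)‖ + (x.1.1 : ℝ) * Real.log ‖σ k (κ : K)‖) -
                  (Real.log ‖σ k (x0.1.2 : K)‖ + (x0.1.1 : ℝ) * Real.log ‖σ k (κ : K)‖) := by
                push_cast
                ring
              rw [h6]
              refine (abs_sub _ _).trans ?_
              have h7 := hxσ (σ k)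
              have h8 := hyσ (σ k)
              linarith
            have h6 := Finset.sum_le_sum h5
            rw [Finset.sum_const, Finset.card_univ, Fintype.card_fin, nsmul_eq_mul] at h6
            push_cast at h6
            linarith
          have hp2 : A * |((x.1.1 - x0.1.1 : ℤ) : ℝ)| ≤ 2 * ρ' := by
            have h5 : |((x.1.1 - x0.1.1 : ℤ) : ℝ)| ≤ |(x.1.1 : ℝ)| + |(x0.1.1 : ℝ)| := by
              push_cast
              exact abs_sub _ _
            have h6 := mul_le_mul_of_nonneg_left h5 (by linarith : (0 : ℝ) ≤ A)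
            have h7 : A * (|(x.1.1 : ℝ)| + |(x0.1.1 : ℝ)|) =
                |(x.1.1 : ℝ)| * A + |(x0.1.1 : ℝ)| * A := by ring
            rw [h7] at h6
            linarith
          have hp3 : ∑ j, |(((x.1.1 - x0.1.1) * nn j + ∑ i, Z x i * α i j : ℤ) : ℝ)| *
              Real.log (Ideal.absNorm (P j)) ≤ 2 * ρ' := by
            have h5 : ∀ j ∈ Finset.univ, |(((x.1.1 - x0.1.1) * nn j +
                ∑ i, Z x i * α i j : ℤ) : ℝ)| * Real.log (Ideal.absNorm (P j)) ≤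
                |((a j + x.1.1 * nn j : ℤ) : ℝ)| * Real.log (Ideal.absNorm (P j)) +
                |((b j + x0.1.1 * nn j : ℤ) : ℝ)| * Real.log (Ideal.absNorm (P j)) := by
              intro j _
              have h6 : ∑ i, Z x i * α i j = a j - b j := by
                have := congrFun hexp j
                simp only [Pi.add_apply, Pi.neg_apply] at this
                rw [← this]
                ring
              rw [h6]
              have h7 : (((x.1.1 - x0.1.1) * nn j + (a j - b j) : ℤ) : ℝ) =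
                  ((a j + x.1.1 * nn j : ℤ) : ℝ) - ((b j + x0.1.1 * nn j : ℤ) : ℝ) := by
                push_cast
                ring
              rw [h7]
              have h8 := mul_le_mul_of_nonneg_right (abs_sub ((a j + x.1.1 * nn j : ℤ) : ℝ)
                ((b j + x0.1.1 * nn j : ℤ) : ℝ)) (hlogP j)
              rw [add_mul] at h8
              exact h8
            have h6 := Finset.sum_le_sum h5
            rw [Finset.sum_add_distrib] at h6
            linarith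
          dsimp only
          rw [← hρρ', hB]
          linarith [hp1, hp2, hp3]
        have himg : (F.image (fun x => ((x.1.1 - x0.1.1, Z x) : ℤ × (Fin n → ℤ)))).card ≤
            {a : ℤ × (Fin n → ℤ) | nrmQ σ P κ nn s α A a ≤ ρ}.ncard := by
          rw [← Set.ncard_coe_finset]
          apply Set.ncard_le_ncard _ hfinS
          intro a ha
          obtain ⟨x, hx, rfl⟩ := Finset.mem_image.1 ha
          exact hmem x hx
        refine (Finset.card_le_mul_card_image F 12 ?_).trans (Nat.mul_le_mul_left 12 himg)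
        intro a _
        -- the fibres have at most twelve elements
        have hinj : Set.InjOn (fun x : ↥(TS1 P κ nn A ρ') => x.1.2)
            (F.filter (fun x => ((x.1.1 - x0.1.1, Z x) : ℤ × (Fin n → ℤ)) = a) : Set _) := by
          intro x hx y hy hxy
          have hx' := (Finset.mem_filter.1 hx).2
          have hy' := (Finset.mem_filter.1 hy).2
          have h5 : x.1.1 - x0.1.1 = y.1.1 - x0.1.1 := by
            rw [← hy'] at hx'
            exact congrArg Prod.fst hx'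
          apply Subtype.ext
          apply Prod.ext
          · linarith
          · exact hxy
        have : Fintype (rootsOfUnity 12 K) := Fintype.ofFinite _
        have hmap : (F.filter (fun x => ((x.1.1 - x0.1.1, Z x) : ℤ × (Fin n → ℤ)) = a)).image
            (fun x : ↥(TS1 P κ nn A ρ') => x.1.2) ⊆
            (Finset.univ : Finset (rootsOfUnity 12 K)).image
              (fun ζ : rootsOfUnity 12 K => (ζ : Kˣ) * (∏ i, s i ^ (a.2 i)) * x0.1.2) := by
          intro u hu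
          obtain ⟨x, hx, rfl⟩ := Finset.mem_image.1 hu
          obtain ⟨hxF, hxa⟩ := Finset.mem_filter.1 hx
          have hZa : Z x = a.2 := congrArg Prod.snd hxa
          obtain ⟨ζ, hζ, hζx⟩ := hZ x hxF
          refine Finset.mem_image.2 ⟨⟨ζ, (mem_rootsOfUnity 12 ζ).2 hζ⟩, Finset.mem_univ _, ?_⟩
          rw [hZa] at hζx
          dsimp only
          rw [← hζx]
          simp
        have h5 := Finset.card_le_card hmap
        rw [Finset.card_image_of_injOn hinj] at h5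
        refine h5.trans (Finset.card_image_le.trans ?_)
        rw [Finset.card_univ, ← Nat.card_eq_fintype_card]
        exact card_rootsOfUnity K 12
    calc q0 * F.card ≤ q0 * (12 * {a : ℤ × (Fin n → ℤ) | nrmQ σ P κ nn s α A a ≤ ρ}.ncard) :=
          Nat.mul_le_mul_left _ hFc
      _ = 12 * q0 * {a : ℤ × (Fin n → ℤ) | nrmQ σ P κ nn s α A a ≤ ρ}.ncard := by ring
  -- conclusion
  have hν0 : 0 ≤ ν := le_trans (Nat.cast_nonneg _) hν
  have hprod0 : 0 ≤ ∏ j, Real.log (Ideal.absNorm (P j)) := Finset.prod_nonneg fun j _ => hlogP j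
  have hcR : ((TS1 P κ nn A ρ').ncard : ℝ) ≤
      12 * q0 * ({a : ℤ × (Fin n → ℤ) | nrmQ σ P κ nn s α A a ≤ ρ}.ncard : ℝ) := by
    exact_mod_cast hcount
  have hplaces := qcn_places K hK
  have hBpow : B ^ (Fintype.card (InfinitePlace K) + m) ≤ B ^ (3 + m) :=
    pow_le_pow_right₀ hB1 (by omega)
  have hrr : Fintype.card (InfinitePlace K) - 1 ≤ 2 := by omega
  have hh2 : h ^ (Fintype.card (InfinitePlace K) - 1) ≤ h ^ 2 := pow_le_pow_right₀ hh hrr
  set W : ℝ := ν * A * h ^ 2 * (∏ j, Real.log (Ideal.absNorm (P j))) with hW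
  have hA0 : 0 ≤ A := by linarith
  have hh0 : 0 ≤ h := by linarith
  have hW0 : 0 ≤ W := by
    rw [hW]
    positivity
  set c : ℝ := ({a : ℤ × (Fin n → ℤ) | nrmQ σ P κ nn s α A a ≤ ρ}.ncard : ℝ) with hc
  have hc0 : 0 ≤ c := Nat.cast_nonneg _
  have hq00 : (0 : ℝ) ≤ q0 := Nat.cast_nonneg _
  calc ρ ^ (Fintype.card (InfinitePlace K) + m) =
      B ^ (Fintype.card (InfinitePlace K) + m) * ρ' ^ (Fintype.card (InfinitePlace K) + m) := by
        rw [← mul_pow, hρρ']
    _ ≤ B ^ (3 + m) * (C2 * W * (12 * q0 * c)) := by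
        apply mul_le_mul hBpow _ (by positivity) (by positivity)
        refine hPHS.trans ?_
        have h5 : C2 * ν * A * h ^ (Fintype.card (InfinitePlace K) - 1) *
          (∏ j, Real.log (Ideal.absNorm (P j))) ≤ C2 * W := by
          rw [hW]
          calc _ = C2 * (ν * A * h ^ (Fintype.card (InfinitePlace K) - 1) *
                (∏ j, Real.log (Ideal.absNorm (P j)))) := by ring
            _ ≤ _ := by
                apply mul_le_mul_of_nonneg_left _ (by linarith)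
                apply mul_le_mul_of_nonneg_right _ hprod0
                exact mul_le_mul_of_nonneg_left hh2 (by positivity)
        exact mul_le_mul h5 hcR (Nat.cast_nonneg _) (mul_nonneg (by linarith) hW0)
    _ = 12 * C2 * B ^ (3 + m) * q0 * W * c := by ring
    _ ≤ D * q0 * W * c := by
        apply mul_le_mul_of_nonneg_right _ hc0
        apply mul_le_mul_of_nonneg_right _ hW0
        exact mul_le_mul_of_nonneg_right hCC hq00
    _ = _ := by
        rw [hW]
        ring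

theorem qcn_num (c : ℝ) (hc : 1 ≤ c) (m : ℕ) :
    12 * (100000 * (10 * ((m : ℝ) + 1)) ^ m) * (40 : ℝ) ^ (3 + m) ≤
      (c + 40 ^ 3 * 1200000) ^ (m + 1) * ((m : ℝ) + 1) ^ m := by
  have hm : (0 : ℝ) ≤ m := Nat.cast_nonneg m
  have h1 : (400 : ℝ) ^ m ≤ (c + 40 ^ 3 * 1200000) ^ m :=
    pow_le_pow_left₀ (by norm_num) (by linarith) _
  have h2 : (40 : ℝ) ^ 3 * 1200000 ≤ c + 40 ^ 3 * 1200000 := by linarith
  have h3 : (0 : ℝ) ≤ ((m : ℝ) + 1) ^ m := by positivity
  have h4 : (400 : ℝ) ^ m = 10 ^ m * 40 ^ m := by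
    rw [← mul_pow]
    norm_num
  calc 12 * (100000 * (10 * ((m : ℝ) + 1)) ^ m) * (40 : ℝ) ^ (3 + m) =
      (400 ^ m * (40 ^ 3 * 1200000)) * ((m : ℝ) + 1) ^ m := by
        rw [mul_pow, pow_add, h4]
        ring
    _ ≤ _ := by
        apply mul_le_mul_of_nonneg_right _ h3
        rw [pow_succ]
        exact mul_le_mul h1 h2 (by norm_num) (pow_nonneg (by linarith) _)

theorem st_QCN (h1 : ST_QPH) (h2 : ST_QSB) (_h3 : ST_QGE) (_h4 : ST_GEL1) (h5 : ST_SUF) :
    ST_QCN := by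
  obtain ⟨c, hc, H⟩ := h2
  refine ⟨c + 40 ^ 3 * 1200000, by linarith, ?_⟩
  intro m K _ _ hK σ hσ _ P hPi hP κ hκ nn 𝔞 h𝔞 G1 hG2 q0 hq0
  refine qcn_main h5 m (c * ((m + 5).factorial : ℝ)) (100000 * (10 * ((m : ℝ) + 1)) ^ m) _ ?_ ?_
    ?_ _ (qcn_num c hc m) (H m _ rfl) (h1 m _ rfl) K hK σ hσ P hPi hP κ hκ nn 𝔞 h𝔞 G1 hG2 q0 hq0
  · have : (1 : ℝ) ≤ ((m + 5).factorial : ℝ) := by
      exact_mod_cast Nat.one_le_iff_ne_zero.mpr (Nat.factorial_ne_zero _)
    nlinarith
  · have : (1 : ℝ) ≤ (10 * ((m : ℝ) + 1)) ^ m := by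
      apply one_le_pow₀
      have : (0 : ℝ) ≤ m := Nat.cast_nonneg m
      linarith
    linarith
  · apply mul_le_mul_of_nonneg_right _ (Nat.cast_nonneg _)
    linarith

end Pool.Helper99.SZ
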