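import Pool.Agent.Helper99.SZ.Stmts4

set_option autoImplicit false

namespace Pool.Helper99.SZ

open NumberField

theorem rlt_zsum {ι : Type} {K : Type} [Field K] (s : Finset ι) (p : K) (hp : p ≠ 0)
    (c : ι → ℤ) : ∏ i ∈ s, p ^ (c i) = p ^ (∑ i ∈ s, c i) := by
  classical
  induction s using Finset.induction_on with
  | empty => simp
  | insert a s ha ih => rw [Finset.prod_insert ha, Finset.sum_insert ha, zpow_add₀ hp, ih]

/-- the exponent vector -/
noncomputable def rltT {m : ℕ} (e : Fin m → ℤ) (s : Fin m → Fin m → ℤ)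
    (a : ℤ × (Fin m → ℤ)) (j : Fin m) : ℤ := a.1 * e j + ∑ i, a.2 i * s i j

theorem rltT_add {m : ℕ} (e : Fin m → ℤ) (s : Fin m → Fin m → ℤ)
    (a b : ℤ × (Fin m → ℤ)) (j : Fin m) :
    rltT e s (a + b) j = rltT e s a j + rltT e s b j := by
  unfold rltT
  simp only [Prod.fst_add, Prod.snd_add, Pi.add_apply, add_mul, Finset.sum_add_distrib]
  ring

theorem rltT_smul {m : ℕ} (e : Fin m → ℤ) (s : Fin m → Fin m → ℤ) (k : ℤ)
    (a : ℤ × (Fin m → ℤ)) (j : Fin m) :
    rltT e s (k • a) j = k * rltT e s a j := by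
  unfold rltT
  simp only [Prod.smul_fst, Prod.smul_snd, Pi.smul_apply, smul_eq_mul, mul_add, Finset.mul_sum]
  congr 1
  · ring
  · apply Finset.sum_congr rfl
    intro i _
    ring

/-- the size -/
noncomputable def rltN {m : ℕ} (p : Fin m → ℕ) (e : Fin m → ℤ) (s : Fin m → Fin m → ℤ) (A : ℝ)
    (a : ℤ × (Fin m → ℤ)) : ℝ :=
  12 * (4 * A * |(a.1 : ℝ)| + 4 * ∑ j, |((rltT e s a j : ℤ) : ℝ)| * Real.log (p j))

theorem rltN_add {m : ℕ} (p : Fin m → ℕ) (hp : ∀ j, 0 ≤ Real.log (p j)) (e : Fin m → ℤ)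
    (s : Fin m → Fin m → ℤ) (A : ℝ) (hA : 0 ≤ A) (a b : ℤ × (Fin m → ℤ)) :
    rltN p e s A (a + b) ≤ rltN p e s A a + rltN p e s A b := by
  unfold rltN
  have h1 : |((a + b).1 : ℝ)| ≤ |(a.1 : ℝ)| + |(b.1 : ℝ)| := by
    rw [Prod.fst_add]; push_cast; exact abs_add_le _ _
  have h2 : ∑ j, |((rltT e s (a + b) j : ℤ) : ℝ)| * Real.log (p j) ≤
      ∑ j, |((rltT e s a j : ℤ) : ℝ)| * Real.log (p j) +
      ∑ j, |((rltT e s b j : ℤ) : ℝ)| * Real.log (p j) := by
    rw [← Finset.sum_add_distrib]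
    apply Finset.sum_le_sum
    intro j _
    rw [rltT_add, ← add_mul]
    apply mul_le_mul_of_nonneg_right _ (hp j)
    push_cast
    exact abs_add_le _ _
  have h3 := mul_le_mul_of_nonneg_left h1 hA
  nlinarith

theorem rltN_smul {m : ℕ} (p : Fin m → ℕ) (e : Fin m → ℤ)
    (s : Fin m → Fin m → ℤ) (A : ℝ) (k : ℤ) (a : ℤ × (Fin m → ℤ)) :
    rltN p e s A (k • a) = |(k : ℝ)| * rltN p e s A a := by
  unfold rltN
  have h1 : |((k • a).1 : ℝ)| = |(k : ℝ)| * |(a.1 : ℝ)| := by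
    rw [Prod.smul_fst, smul_eq_mul]; push_cast; exact abs_mul _ _
  have h2 : ∑ j, |((rltT e s (k • a) j : ℤ) : ℝ)| * Real.log (p j) =
      |(k : ℝ)| * ∑ j, |((rltT e s a j : ℤ) : ℝ)| * Real.log (p j) := by
    rw [Finset.mul_sum]
    apply Finset.sum_congr rfl
    intro j _
    rw [rltT_smul]
    push_cast
    rw [abs_mul, mul_assoc]
  rw [h1, h2]
  ring

/-- the value -/
theorem rlt_val {m : ℕ} (p : Fin m → ℕ) (hp : ∀ j, ((p j : ℕ) : ℚ) ≠ 0) (e : Fin m → ℤ)
    (s : Fin m → Fin m → ℤ) (w g0 : ℚ) (hg : g0 = w * ∏ j, (p j : ℚ) ^ (e j))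
    (a : ℤ × (Fin m → ℤ)) :
    (g0 ^ 12) ^ a.1 * ∏ i, ((∏ j, (p j : ℚ) ^ (s i j)) ^ 12) ^ (a.2 i) =
      w ^ (12 * a.1) * ∏ j, (p j : ℚ) ^ (12 * rltT e s a j) := by
  have h1 : (g0 ^ 12) ^ a.1 = w ^ (12 * a.1) * ∏ j, (p j : ℚ) ^ (12 * (a.1 * e j)) := by
    have h12 : g0 ^ 12 = g0 ^ (12 : ℤ) := by norm_cast
    rw [h12, ← zpow_mul, hg, mul_zpow, ← Finset.prod_zpow]
    congr 1
    apply Finset.prod_congr rfl
    intro j _
    rw [← zpow_mul]
    congr 1
    ring
  have h2 : ∏ i, ((∏ j, (p j : ℚ) ^ (s i j)) ^ 12) ^ (a.2 i) =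
      ∏ j, (p j : ℚ) ^ (12 * ∑ i, a.2 i * s i j) := by
    have h3 : ∀ i, ((∏ j, (p j : ℚ) ^ (s i j)) ^ 12) ^ (a.2 i) =
        ∏ j, (p j : ℚ) ^ (12 * (a.2 i * s i j)) := by
      intro i
      have h12 : (∏ j, (p j : ℚ) ^ (s i j)) ^ 12 = (∏ j, (p j : ℚ) ^ (s i j)) ^ (12 : ℤ) := by
        norm_cast
      rw [h12, ← zpow_mul, ← Finset.prod_zpow]
      apply Finset.prod_congr rfl
      intro j _
      rw [← zpow_mul]
      congr 1
      ring
    rw [Finset.prod_congr rfl (fun i _ => h3 i), Finset.prod_comm]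
    apply Finset.prod_congr rfl
    intro j _
    rw [rlt_zsum _ _ (hp j), Finset.mul_sum]
  rw [h1, h2, mul_assoc, ← Finset.prod_mul_distrib]
  congr 1
  apply Finset.prod_congr rfl
  intro j _
  rw [← zpow_add₀ (hp j)]
  congr 1
  unfold rltT
  ring

/-- unique factorization -/
theorem rlt_uf {m : ℕ} (p : Fin m → ℕ) (hpi : Function.Injective p) (hp : ∀ j, (p j).Prime)
    (x : Fin m → ℤ) (h : ∏ j, (p j : ℚ) ^ (x j) = 1) : x = 0 := by
  funext i
  have : Fact (p i).Prime := ⟨hp i⟩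
  have hne : ∀ j, ((p j : ℕ) : ℚ) ≠ 0 := fun j => by exact_mod_cast (hp j).ne_zero
  have key : ∀ s : Finset (Fin m), padicValRat (p i) (∏ j ∈ s, (p j : ℚ) ^ (x j)) =
      ∑ j ∈ s, if j = i then x j else 0 := by
    intro s
    classical
    induction s using Finset.induction_on with
    | empty => simp
    | insert a s ha ih =>
      rw [Finset.prod_insert ha, Finset.sum_insert ha, padicValRat.mul (zpow_ne_zero _ (hne a))
        (Finset.prod_ne_zero_iff.2 fun j _ => zpow_ne_zero _ (hne j)), ih, padicValRat.zpow]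
      congr 1
      by_cases hai : a = i
      · subst hai
        rw [if_pos rfl, padicValRat.self (hp a).one_lt, mul_one]
      · rw [if_neg hai]
        have : Fact (p a).Prime := ⟨hp a⟩
        have h0 : padicValRat (p i) ((p a : ℕ) : ℚ) = 0 := by
          rw [padicValRat.of_nat, padicValNat_primes]
          · rfl
          · intro hc; exact hai (hpi hc.symm)
        rw [h0, mul_zero]
  have h2 := key Finset.univ
  rw [h, padicValRat.one, Finset.sum_ite_eq'] at h2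
  simpa using h2.symm

/-- a number of integers in an interval -/
theorem rlt_int (t : ℝ) (ht : 0 ≤ t) (c : ℤ) :
    ∃ F : Finset ℤ, t ≤ F.card ∧ ∀ k ∈ F, |((c + k : ℤ) : ℝ)| ≤ t := by
  refine ⟨(Finset.Icc (0 : ℤ) ⌊t⌋).image (fun k => k - c), ?_, ?_⟩
  · rw [Finset.card_image_of_injective _ (fun a b h => by simpa using h), Int.card_Icc]
    have h1 : (0 : ℤ) ≤ ⌊t⌋ := Int.floor_nonneg.2 ht
    have h2 : ((⌊t⌋ + 1 - 0).toNat : ℤ) = ⌊t⌋ + 1 := by rw [Int.toNat_of_nonneg] <;> omega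
    have h3 : (((⌊t⌋ + 1 - 0).toNat : ℕ) : ℝ) = ⌊t⌋ + 1 := by
      have := congrArg (fun z : ℤ => (z : ℝ)) h2
      push_cast at this
      exact this
    rw [h3]
    exact (Int.lt_floor_add_one t).le
  · intro k hk
    obtain ⟨l, hl, rfl⟩ := Finset.mem_image.1 hk
    rw [Finset.mem_Icc] at hl
    have h1 : c + (l - c) = l := by ring
    rw [h1, abs_of_nonneg (by exact_mod_cast hl.1)]
    exact (by exact_mod_cast hl.2 : (l : ℝ) ≤ ⌊t⌋).trans (Int.floor_le t)

/-- a basis of a subgroup of finite index with small coordinates -/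
theorem rlt_basis (hRB : ST_RB2) {m : ℕ} (p : Fin m → ℕ) (hp : ∀ j, (p j).Prime)
    (Λ : AddSubgroup (Fin m → ℤ)) (hΛ : Λ.index ≠ 0) :
    ∃ s : Fin m → Fin m → ℤ, (∀ i, s i ∈ Λ) ∧
      (∀ x ∈ Λ, ∃ z : Fin m → ℤ, x = fun j => ∑ i, z i * s i j) ∧
      ∀ (z : Fin m → ℤ) (i : Fin m), |((z i : ℤ) : ℝ)| ≤ ((m + 1).factorial : ℝ) / Real.log 2 *
        ∑ j, |((∑ i, z i * s i j : ℤ) : ℝ)| * Real.log (p j) := by
  have hinj : Function.Injective (Λ.subtype.toIntLinearMap : Λ →ₗ[ℤ] (Fin m → ℤ)) :=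
    Subtype.val_injective
  have : Module.Finite ℤ Λ := Module.Finite.of_injective _ hinj
  have : Module.Free ℤ Λ := inferInstance
  have hrank : Module.finrank ℤ Λ = m := by
    apply le_antisymm
    · have := LinearMap.finrank_le_finrank_of_injective hinj
      simpa using this
    · let f : (Fin m → ℤ) →ₗ[ℤ] Λ :=
        (AddMonoidHom.mk' (fun x => (⟨Λ.index • x, Λ.nsmul_index_mem x⟩ : Λ))
          (fun a b => by
            apply Subtype.ext
            show Λ.index • (a + b) = Λ.index • a + Λ.index • b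
            rw [smul_add])).toIntLinearMap
      have hf : Function.Injective f := by
        intro a b hab
        have h1 : Λ.index • a = Λ.index • b := congrArg Subtype.val hab
        funext j
        have h2 := congrFun h1 j
        simp only [Pi.smul_apply, nsmul_eq_mul] at h2
        exact mul_left_cancel₀ (by exact_mod_cast hΛ) h2
      have := LinearMap.finrank_le_finrank_of_injective hf
      simpa using this
  have hl2 : 0 < Real.log 2 := Real.log_pos (by norm_num)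
  have hlp : ∀ j, Real.log 2 ≤ Real.log (p j) := fun j =>
    Real.log_le_log (by norm_num) (by exact_mod_cast (hp j).two_le)
  let ι : Λ →+ EuclideanSpace ℝ (Fin m) := AddMonoidHom.mk'
    (fun x => WithLp.toLp 2 (fun j => ((x : Fin m → ℤ) j : ℝ) * Real.log (p j) / Real.log 2))
    (fun a b => by
      ext j
      simp only [AddSubgroup.coe_add, Pi.add_apply, PiLp.add_apply]
      push_cast
      ring)
  have hι : ∀ x j, (ι x) j = ((x : Fin m → ℤ) j : ℝ) * Real.log (p j) / Real.log 2 :=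
    fun x j => rfl
  have h1 : ∀ x : Λ, x ≠ 0 → 1 ≤ ‖ι x‖ := by
    intro x hx
    obtain ⟨j, hj⟩ : ∃ j, (x : Fin m → ℤ) j ≠ 0 := by
      by_contra hcon
      push Not at hcon
      exact hx (Subtype.ext (funext hcon))
    refine le_trans ?_ (PiLp.norm_apply_le (ι x) j)
    rw [hι, Real.norm_eq_abs, abs_div, abs_mul, abs_of_pos hl2, abs_of_pos (hl2.trans_le (hlp j)),
      le_div_iff₀ hl2, one_mul]
    have h2 : (1 : ℝ) ≤ |(((x : Fin m → ℤ) j : ℤ) : ℝ)| := by
      have := Int.one_le_abs hj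
      exact_mod_cast this
    nlinarith [hlp j]
  obtain ⟨b, hb⟩ := hRB m (EuclideanSpace ℝ (Fin m)) Λ hrank ι h1
  refine ⟨fun i => (b i : Λ), fun i => (b i).2, fun x hx => ?_, fun z i => ?_⟩
  · refine ⟨fun i => b.repr ⟨x, hx⟩ i, ?_⟩
    have h2 := b.sum_repr ⟨x, hx⟩
    have h3 := congrArg (Λ.subtype) h2
    rw [map_sum] at h3
    funext j
    have h4 := congrFun h3 j
    rw [Finset.sum_apply] at h4
    simp only [AddSubgroup.subtype_apply] at h4
    rw [← h4]
    apply Finset.sum_congr rfl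
    intro i _
    simp
  · set y : Λ := ∑ i, z i • b i with hy
    have h2 : b.repr y i = z i := by
      rw [hy, b.repr_sum_self]
    have h3 := hb y i
    rw [h2] at h3
    have h4 : ∀ j, (y : Fin m → ℤ) j = ∑ i, z i * (b i : Fin m → ℤ) j := by
      intro j
      have h5 : (y : Fin m → ℤ) = ∑ i, z i • (b i : Fin m → ℤ) := by
        rw [hy]
        simp
      rw [h5, Finset.sum_apply]
      simp
    refine h3.trans ?_
    rw [div_mul_eq_mul_div, mul_div_assoc]
    apply mul_le_mul_of_nonneg_left _ (Nat.cast_nonneg _)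
    rw [Finset.sum_div]
    have h6 : ‖ι y‖ ≤ ∑ j, ‖(ι y) j‖ := by
      have h7 : ι y = ∑ j, EuclideanSpace.single j ((ι y) j) := by
        ext j
        simp [Finset.sum_apply]
      conv_lhs => rw [h7]
      refine (norm_sum_le _ _).trans (Finset.sum_le_sum fun j _ => ?_)
      rw [PiLp.norm_single]
    refine h6.trans (Finset.sum_le_sum fun j _ => ?_)
    rw [hι, Real.norm_eq_abs, abs_div, abs_mul, abs_of_pos hl2,
      abs_of_pos (hl2.trans_le (hlp j)), h4]

theorem rlt_pw (x B : ℝ) (hx : 0 < x) (hB : |Real.log x| ≤ B) (k : ℤ) :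
    x ^ k ≤ Real.exp (|(k : ℝ)| * B) := by
  have h1 : x ^ k = Real.exp (k * Real.log x) := by
    rw [← Real.log_zpow, Real.exp_log (zpow_pos hx _)]
  rw [h1]
  apply Real.exp_le_exp.2
  calc (k : ℝ) * Real.log x ≤ |(k : ℝ) * Real.log x| := le_abs_self _
    _ = |(k : ℝ)| * |Real.log x| := abs_mul _ _
    _ ≤ |(k : ℝ)| * B := mul_le_mul_of_nonneg_left hB (abs_nonneg _)

theorem rlt_npw (n : ℕ) (hn : 0 < n) (B : ℝ) (hB : Real.log n ≤ B) (k : ℕ) :
    ((n ^ k : ℕ) : ℝ) ≤ Real.exp ((k : ℝ) * B) := by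
  have h1 : ((n ^ k : ℕ) : ℝ) = Real.exp (k * Real.log n) := by
    rw [Real.exp_nat_mul, Real.exp_log (by exact_mod_cast hn)]
    push_cast
    rfl
  rw [h1]
  exact Real.exp_le_exp.2 (mul_le_mul_of_nonneg_left hB (Nat.cast_nonneg _))

theorem rlt_iint (x y : ℤ) (hy : y ≠ 0) (n : ℕ) :
    IsIntegral ℤ (((y.natAbs : ℕ) : ℚ) ^ n * ((x : ℚ) / (y : ℚ)) ^ n) := by
  rw [← mul_pow]
  apply IsIntegral.pow
  have hy' : (y : ℚ) ≠ 0 := by exact_mod_cast hy
  have h1 : ((y.natAbs : ℕ) : ℚ) * ((x : ℚ) / (y : ℚ)) = ((y.sign * x : ℤ) : ℚ) := by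
    have h2 : ((y.natAbs : ℕ) : ℚ) = (y.sign : ℚ) * (y : ℚ) := by
      have h3 : ((y.natAbs : ℕ) : ℤ) = y.sign * y := by
        rw [Int.sign_mul_self_eq_natAbs]
      have h4 : (((y.natAbs : ℕ) : ℤ) : ℚ) = ((y.sign * y : ℤ) : ℚ) := by rw [h3]
      rw [Int.cast_mul] at h4
      rw [← h4, Int.cast_natCast]
    rw [h2]
    push_cast
    field_simp
  rw [h1]
  exact isIntegral_algebraMap (R := ℤ) (A := ℚ) (x := y.sign * x)

theorem rlt_ip (n : ℕ) (hn : (n : ℚ) ≠ 0) (T : ℤ) :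
    IsIntegral ℤ ((n : ℚ) ^ (12 * T.natAbs) * (n : ℚ) ^ (12 * T)) := by
  rcases le_total 0 T with h | h
  · obtain ⟨t, rfl⟩ := Int.eq_ofNat_of_zero_le h
    have h1 : ((n : ℚ) ^ (12 * (t : ℤ))) = (n : ℚ) ^ (12 * t) := by
      have : (12 * (t : ℤ)) = ((12 * t : ℕ) : ℤ) := by push_cast; ring
      rw [this, zpow_natCast]
    rw [h1]
    have h2 : IsIntegral ℤ ((n : ℕ) : ℚ) := by
      have := isIntegral_algebraMap (R := ℤ) (A := ℚ) (x := (n : ℤ))
      simpa using this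
    exact (h2.pow _).mul (h2.pow _)
  · obtain ⟨t, ht⟩ := Int.eq_ofNat_of_zero_le (neg_nonneg.2 h)
    have hT : T = -(t : ℤ) := by omega
    subst hT
    have h1 : ((n : ℚ) ^ (12 * (-(t : ℤ)))) = ((n : ℚ) ^ (12 * t))⁻¹ := by
      have : (12 * (-(t : ℤ))) = -((12 * t : ℕ) : ℤ) := by push_cast; ring
      rw [this, zpow_neg, zpow_natCast]
    rw [h1]
    have h2 : (-(t : ℤ)).natAbs = t := by simp
    rw [h2, mul_inv_cancel₀ (pow_ne_zero _ hn)]
    exact isIntegral_one

theorem rlt_log (x y : ℤ) (hx : x ≠ 0) (hy : y ≠ 0) (A : ℝ) (h1 : Real.log |(x : ℝ)| ≤ A)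
    (h2 : Real.log |(y : ℝ)| ≤ A) : |Real.log (|(x : ℝ) / (y : ℝ)|)| ≤ A := by
  have hx1 : (1 : ℝ) ≤ |(x : ℝ)| := by
    have := Int.one_le_abs hx
    exact_mod_cast this
  have hy1 : (1 : ℝ) ≤ |(y : ℝ)| := by
    have := Int.one_le_abs hy
    exact_mod_cast this
  rw [abs_div, Real.log_div (by linarith) (by linarith)]
  have h3 := Real.log_nonneg hx1
  have h4 := Real.log_nonneg hy1
  rw [abs_le]
  constructor <;> linarith

/-- the lattice data -/
theorem rlt_ld {m : ℕ} (p : Fin m → ℕ) (hpi : Function.Injective p) (hp : ∀ j, (p j).Prime)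
    (e : Fin m → ℤ) (x0 y0 : ℤ) (hx0 : x0 ≠ 0) (hy0 : y0 ≠ 0) (g0 : ℚ)
    (hg : g0 = (x0 : ℚ) / (y0 : ℚ) * ∏ j, (p j : ℚ) ^ (e j)) (htor : ∀ k : ℤ, k ≠ 0 → g0 ^ k ≠ 1)
    (A S G : ℝ) (hA : 1 ≤ A) (hxA : Real.log |(x0 : ℝ)| ≤ A) (hyA : Real.log |(y0 : ℝ)| ≤ A)
    (hS : 0 ≤ S) (heS : ∀ j, |((e j : ℤ) : ℝ)| * Real.log (p j) ≤ S) (hG : G ≤ 4 * A)
    (s : Fin m → Fin m → ℤ)
    (hs : ∀ (z : Fin m → ℤ) (i : Fin m), |((z i : ℤ) : ℝ)| ≤ ((m + 1).factorial : ℝ) / Real.log 2 *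
        ∑ j, |((∑ i, z i * s i j : ℤ) : ℝ)| * Real.log (p j)) :
    LD ℚ m (g0 ^ 12) (fun i => (∏ j, (p j : ℚ) ^ (s i j)) ^ 12) (rltN p e s A) G
        (((m : ℝ) + 4) * (1 * ((m + 5).factorial : ℝ)) * (1 + S)) := by
  have hpq : ∀ j, ((p j : ℕ) : ℚ) ≠ 0 := fun j => by exact_mod_cast (hp j).ne_zero
  have hl2 : 0 < Real.log 2 := Real.log_pos (by norm_num)
  have hlp : ∀ j, Real.log 2 ≤ Real.log (p j) := fun j =>
    Real.log_le_log (by norm_num) (by exact_mod_cast (hp j).two_le)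
  have hlp0 : ∀ j, 0 ≤ Real.log (p j) := fun j => hl2.le.trans (hlp j)
  have hx0' : (x0 : ℚ) ≠ 0 := by exact_mod_cast hx0
  have hy0' : (y0 : ℚ) ≠ 0 := by exact_mod_cast hy0
  have hw : (x0 : ℚ) / (y0 : ℚ) ≠ 0 := div_ne_zero hx0' hy0'
  have hg0 : g0 ≠ 0 := by
    rw [hg]
    exact mul_ne_zero hw (Finset.prod_ne_zero_iff.2 fun j _ => zpow_ne_zero _ (hpq j))
  have hA0 : 0 ≤ A := by linarith
  have hval := rlt_val p hpq e s ((x0 : ℚ) / (y0 : ℚ)) g0 hg
  have hsum0 : ∀ a : ℤ × (Fin m → ℤ),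
      0 ≤ ∑ j, |((rltT e s a j : ℤ) : ℝ)| * Real.log (p j) := fun a =>
    Finset.sum_nonneg fun j _ => mul_nonneg (abs_nonneg _) (hlp0 j)
  have hco0 : ∀ a : ℤ × (Fin m → ℤ), |(a.1 : ℝ)| ≤ rltN p e s A a := by
    intro a
    have h1 := hsum0 a
    have h2 := abs_nonneg (a.1 : ℝ)
    unfold rltN
    nlinarith
  have hcoo : ∀ (a : ℤ × (Fin m → ℤ)) i, |((a.2 i : ℤ) : ℝ)| ≤
      ((m : ℝ) + 4) * (1 * ((m + 5).factorial : ℝ)) * (1 + S) * rltN p e s A a := by
    intro a i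
    have h0 := hs a.2 i
    have h1 : ∑ j, |((∑ i, a.2 i * s i j : ℤ) : ℝ)| * Real.log (p j) ≤
        ∑ j, |((rltT e s a j : ℤ) : ℝ)| * Real.log (p j) + m * S * |(a.1 : ℝ)| := by
      have h2 : ∀ j, |((∑ i, a.2 i * s i j : ℤ) : ℝ)| * Real.log (p j) ≤
          |((rltT e s a j : ℤ) : ℝ)| * Real.log (p j) + S * |(a.1 : ℝ)| := by
        intro j
        have h3 : ((∑ i, a.2 i * s i j : ℤ) : ℝ) =
            ((rltT e s a j : ℤ) : ℝ) - (a.1 : ℝ) * (e j : ℝ) := by
          unfold rltT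
          push_cast
          ring
        have h4 : |((∑ i, a.2 i * s i j : ℤ) : ℝ)| ≤
            |((rltT e s a j : ℤ) : ℝ)| + |(a.1 : ℝ)| * |(e j : ℝ)| := by
          rw [h3, ← abs_mul]
          exact abs_sub _ _
        calc |((∑ i, a.2 i * s i j : ℤ) : ℝ)| * Real.log (p j)
            ≤ (|((rltT e s a j : ℤ) : ℝ)| + |(a.1 : ℝ)| * |(e j : ℝ)|) * Real.log (p j) :=
              mul_le_mul_of_nonneg_right h4 (hlp0 j)
          _ = |((rltT e s a j : ℤ) : ℝ)| * Real.log (p j) +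
              (|(e j : ℝ)| * Real.log (p j)) * |(a.1 : ℝ)| := by ring
          _ ≤ _ := by
            have := mul_le_mul_of_nonneg_right (heS j) (abs_nonneg (a.1 : ℝ))
            linarith
      refine (Finset.sum_le_sum fun j _ => h2 j).trans ?_
      rw [Finset.sum_add_distrib, Finset.sum_const, Finset.card_univ, Fintype.card_fin,
        nsmul_eq_mul]
      linarith
    have h5 : ∑ j, |((rltT e s a j : ℤ) : ℝ)| * Real.log (p j) + m * S * |(a.1 : ℝ)| ≤
        (1 + m * S) * (rltN p e s A a / 48) := by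
      unfold rltN
      have h6 := hsum0 a
      have h7 := abs_nonneg (a.1 : ℝ)
      have h8 : 0 ≤ (m : ℝ) * S := mul_nonneg (Nat.cast_nonneg _) hS
      have h9 : 0 ≤ (m : ℝ) * S * |(a.1 : ℝ)| * (A - 1) :=
        mul_nonneg (mul_nonneg h8 h7) (by linarith)
      have h10 := mul_nonneg h8 h6
      have h11 := mul_nonneg hA0 h7
      nlinarith
    have hN0 : 0 ≤ rltN p e s A a := (abs_nonneg _).trans (hco0 a)
    have hf : ((m + 1).factorial : ℝ) ≤ ((m + 5).factorial : ℝ) := by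
      exact_mod_cast Nat.factorial_le (by omega)
    have hf0 : (0 : ℝ) ≤ ((m + 1).factorial : ℝ) := Nat.cast_nonneg _
    have hl2' : (1 : ℝ) / 2 < Real.log 2 := by
      have := Real.log_two_gt_d9
      linarith
    have h12 : ((m + 1).factorial : ℝ) / Real.log 2 ≤ 2 * ((m + 5).factorial : ℝ) := by
      rw [div_le_iff₀ hl2]
      nlinarith
    have h13 : 0 ≤ ∑ j, |((∑ i, a.2 i * s i j : ℤ) : ℝ)| * Real.log (p j) :=
      Finset.sum_nonneg fun j _ => mul_nonneg (abs_nonneg _) (hlp0 j)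
    have hm0 : (0 : ℝ) ≤ m := Nat.cast_nonneg _
    calc |((a.2 i : ℤ) : ℝ)| ≤ ((m + 1).factorial : ℝ) / Real.log 2 *
          ∑ j, |((∑ i, a.2 i * s i j : ℤ) : ℝ)| * Real.log (p j) := h0
      _ ≤ (2 * ((m + 5).factorial : ℝ)) * ((1 + m * S) * (rltN p e s A a / 48)) :=
          mul_le_mul h12 (h1.trans h5) h13 (by positivity)
      _ = ((m + 5).factorial : ℝ) * rltN p e s A a * ((1 + m * S) / 24) := by ring
      _ ≤ ((m + 5).factorial : ℝ) * rltN p e s A a * (((m : ℝ) + 4) * (1 + S)) := by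
          apply mul_le_mul_of_nonneg_left _ (mul_nonneg (Nat.cast_nonneg _) hN0)
          nlinarith [mul_nonneg hm0 hS]
      _ = _ := by ring
  refine ⟨pow_ne_zero _ hg0, fun i => pow_ne_zero _ (Finset.prod_ne_zero_iff.2
    fun j _ => zpow_ne_zero _ (hpq j)), rltN_add p hlp0 e s A hA0, rltN_smul p e s A, ?_, ?_,
    hco0, hcoo, ?_, ?_, ?_⟩
  · intro a τ
    have h1 : τ ((g0 ^ 12) ^ a.1 * ∏ i, ((∏ j, (p j : ℚ) ^ (s i j)) ^ 12) ^ (a.2 i)) =
        ((((g0 ^ 12) ^ a.1 * ∏ i, ((∏ j, (p j : ℚ) ^ (s i j)) ^ 12) ^ (a.2 i) : ℚ)) : ℂ) :=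
      eq_ratCast τ _
    rw [h1, Complex.norm_ratCast, hval a]
    push_cast
    rw [abs_mul, abs_zpow, Finset.abs_prod]
    unfold rltN
    have h2 : |(x0 : ℝ) / (y0 : ℝ)| ^ (12 * a.1) ≤ Real.exp (|((12 * a.1 : ℤ) : ℝ)| * A) :=
      rlt_pw _ _ (abs_pos.2 (div_ne_zero (by exact_mod_cast hx0) (by exact_mod_cast hy0)))
        (rlt_log x0 y0 hx0 hy0 A hxA hyA) _
    have h3 : ∏ j, |((p j : ℕ) : ℝ) ^ (12 * rltT e s a j)| ≤
        Real.exp (∑ j, 12 * (|((rltT e s a j : ℤ) : ℝ)| * Real.log (p j))) := by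
      rw [Real.exp_sum]
      apply Finset.prod_le_prod
      · intro j _; exact abs_nonneg _
      · intro j _
        have hpj : (0 : ℝ) < ((p j : ℕ) : ℝ) := by exact_mod_cast (hp j).pos
        rw [abs_of_pos (zpow_pos hpj _)]
        have h4 := rlt_pw ((p j : ℕ) : ℝ) (Real.log (p j)) hpj
          (by rw [abs_of_nonneg (hlp0 j)]) (12 * rltT e s a j)
        refine h4.trans (le_of_eq ?_)
        congr 1
        push_cast
        rw [abs_mul, abs_of_pos (by norm_num : (0 : ℝ) < 12)]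
        ring
    have h5 := mul_le_mul h2 h3 (Finset.prod_nonneg fun j _ => abs_nonneg _) (Real.exp_pos _).le
    refine h5.trans ?_
    rw [← Real.exp_add]
    apply Real.exp_le_exp.2
    push_cast
    rw [abs_mul, abs_of_pos (by norm_num : (0 : ℝ) < 12), ← Finset.mul_sum]
    have h6 := hsum0 a
    have h7 := abs_nonneg (a.1 : ℝ)
    nlinarith [mul_nonneg hA0 h7]
  · intro a
    set q1 : ℕ := if 0 ≤ a.1 then y0.natAbs else x0.natAbs with hq1
    have hq1p : 0 < q1 := by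
      rw [hq1]
      split_ifs
      · exact Int.natAbs_pos.2 hy0
      · exact Int.natAbs_pos.2 hx0
    have hq1A : Real.log q1 ≤ A := by
      rw [hq1]
      split_ifs
      · have : ((y0.natAbs : ℕ) : ℝ) = |(y0 : ℝ)| := by
          rw [Nat.cast_natAbs, Int.cast_abs]
        rw [this]; exact hyA
      · have : ((x0.natAbs : ℕ) : ℝ) = |(x0 : ℝ)| := by
          rw [Nat.cast_natAbs, Int.cast_abs]
        rw [this]; exact hxA
    refine ⟨q1 ^ (12 * a.1.natAbs) * ∏ j, (p j) ^ (12 * (rltT e s a j).natAbs), ?_, ?_, ?_⟩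
    · exact Nat.mul_pos (pow_pos hq1p _) (Finset.prod_pos fun j _ => pow_pos (hp j).pos _)
    · have h1 := rlt_npw q1 hq1p A hq1A (12 * a.1.natAbs)
      have h2 : ((∏ j, (p j) ^ (12 * (rltT e s a j).natAbs) : ℕ) : ℝ) ≤
          Real.exp (∑ j, 12 * (|((rltT e s a j : ℤ) : ℝ)| * Real.log (p j))) := by
        rw [Real.exp_sum, Nat.cast_prod]
        apply Finset.prod_le_prod
        · intro j _; exact Nat.cast_nonneg _
        · intro j _
          refine (rlt_npw (p j) (hp j).pos _ le_rfl _).trans (le_of_eq ?_)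
          congr 1
          push_cast
          have : (((rltT e s a j).natAbs : ℕ) : ℝ) = |((rltT e s a j : ℤ) : ℝ)| := by
            rw [Nat.cast_natAbs, Int.cast_abs]
          rw [this]
          ring
      rw [Nat.cast_mul]
      refine (mul_le_mul h1 h2 (Nat.cast_nonneg _) (Real.exp_pos _).le).trans ?_
      rw [← Real.exp_add]
      apply Real.exp_le_exp.2
      unfold rltN
      have : ((12 * a.1.natAbs : ℕ) : ℝ) = 12 * |(a.1 : ℝ)| := by
        push_cast
        rw [Nat.cast_natAbs, Int.cast_abs]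
      rw [this, ← Finset.mul_sum]
      have h6 := hsum0 a
      have h7 := abs_nonneg (a.1 : ℝ)
      nlinarith [mul_nonneg hA0 h7]
    · have h1 := hval a
      rw [h1]
      have h2 : ((q1 ^ (12 * a.1.natAbs) * ∏ j, (p j) ^ (12 * (rltT e s a j).natAbs) : ℕ) : ℚ) *
          (((x0 : ℚ) / (y0 : ℚ)) ^ (12 * a.1) * ∏ j, (p j : ℚ) ^ (12 * rltT e s a j)) =
          ((q1 : ℚ) ^ (12 * a.1.natAbs) * ((x0 : ℚ) / (y0 : ℚ)) ^ (12 * a.1)) *
          ∏ j, ((p j : ℚ) ^ (12 * (rltT e s a j).natAbs) * (p j : ℚ) ^ (12 * rltT e s a j)) := by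
        rw [Finset.prod_mul_distrib]
        push_cast
        ring
      rw [h2]
      apply IsIntegral.mul
      · rcases le_or_gt 0 a.1 with h | h
        · have h3 : q1 = y0.natAbs := by rw [hq1, if_pos h]
          have h4 : ((x0 : ℚ) / (y0 : ℚ)) ^ (12 * a.1) =
              ((x0 : ℚ) / (y0 : ℚ)) ^ (12 * a.1.natAbs) := by
            rw [← zpow_natCast]
            congr 1
            push_cast
            rw [abs_of_nonneg h]
          rw [h3, h4]
          exact rlt_iint x0 y0 hy0 _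
        · have h3 : q1 = x0.natAbs := by rw [hq1, if_neg (not_le.2 h)]
          have h4 : ((x0 : ℚ) / (y0 : ℚ)) ^ (12 * a.1) =
              ((y0 : ℚ) / (x0 : ℚ)) ^ (12 * a.1.natAbs) := by
            rw [← zpow_natCast, ← inv_div (y0 : ℚ) (x0 : ℚ), inv_zpow']
            congr 1
            push_cast
            rw [abs_of_neg h]
            ring
          rw [h3, h4]
          exact rlt_iint y0 x0 hx0 _
      · exact IsIntegral.prod _ fun j _ => rlt_ip (p j) (hpq j) _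
  · intro ρ
    set Z : ℝ := ((m : ℝ) + 4) * (1 * ((m + 5).factorial : ℝ)) * (1 + S) with hZ
    have hZ0 : 0 ≤ Z := by rw [hZ]; positivity
    have hfin : (Set.Icc (-⌈ρ⌉ - 1) (⌈ρ⌉ + 1) ×ˢ
        Set.Icc (fun _ : Fin m => -⌈Z * ρ⌉ - 1) (fun _ => ⌈Z * ρ⌉ + 1) :
        Set (ℤ × (Fin m → ℤ))).Finite :=
      (Set.finite_Icc _ _).prod (Set.finite_Icc _ _)
    refine hfin.subset ?_
    intro a ha
    have ha' : rltN p e s A a ≤ ρ := ha
    have key : ∀ (z : ℤ) (r : ℝ), |(z : ℝ)| ≤ r → -⌈r⌉ - 1 ≤ z ∧ z ≤ ⌈r⌉ + 1 := by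
      intro z r hr
      have h1 := (abs_le.1 hr)
      have h2 := Int.le_ceil r
      constructor
      · have : ((-⌈r⌉ - 1 : ℤ) : ℝ) ≤ (z : ℝ) := by push_cast; linarith [h1.1]
        exact_mod_cast this
      · have : (z : ℝ) ≤ ((⌈r⌉ + 1 : ℤ) : ℝ) := by push_cast; linarith [h1.2]
        exact_mod_cast this
    refine ⟨?_, ?_⟩
    · exact key _ _ ((hco0 a).trans ha')
    · have h3 : ∀ i, |((a.2 i : ℤ) : ℝ)| ≤ Z * ρ := fun i =>
        (hcoo a i).trans (mul_le_mul_of_nonneg_left ha' hZ0)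
      exact ⟨fun i => (key _ _ (h3 i)).1, fun i => (key _ _ (h3 i)).2⟩
  · intro k hk
    have h1 : (g0 ^ 12) ^ k = g0 ^ (12 * k) := by
      have h12 : g0 ^ 12 = g0 ^ (12 : ℤ) := by norm_cast
      rw [h12, ← zpow_mul]
    rw [h1]
    exact htor _ (by omega)
  · intro a ha h1
    have h2 := hval a
    rw [h2] at h1
    by_cases hk : a.1 = 0
    · exfalso
      apply ha
      rw [hk, mul_zero, zpow_zero, one_mul] at h1
      have h3 := rlt_uf p hpi hp _ h1
      have h4 : ∀ j, ∑ i, a.2 i * s i j = 0 := by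
        intro j
        have h5 := congrFun h3 j
        simp only [Pi.zero_apply] at h5
        unfold rltT at h5
        rw [hk, zero_mul, zero_add] at h5
        omega
      have h5 : a.2 = 0 := by
        funext i
        have h6 := hs a.2 i
        have h7 : ∑ j, |((∑ i, a.2 i * s i j : ℤ) : ℝ)| * Real.log (p j) = 0 := by
          apply Finset.sum_eq_zero
          intro j _
          rw [h4 j]
          simp
        rw [h7, mul_zero] at h6
        have h8 := abs_nonpos_iff.1 h6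
        exact_mod_cast h8
      exact Prod.ext hk h5
    · have h3 : (1 : ℝ) ≤ |(a.1 : ℝ)| := by
        have := Int.one_le_abs hk
        exact_mod_cast this
      have h6 := hsum0 a
      unfold rltN
      nlinarith

/-- the growth -/
theorem rlt_growth {m : ℕ} (p : Fin m → ℕ) (hp : ∀ j, (p j).Prime)
    (e : Fin m → ℤ) (A : ℝ) (hA : 1 ≤ A) (Λ : AddSubgroup (Fin m → ℤ)) (q0 : ℕ)
    (hi : Λ.index ≠ 0) (hiq : Λ.index ≤ q0) (s : Fin m → Fin m → ℤ)
    (hb : ∀ x ∈ Λ, ∃ z : Fin m → ℤ, x = fun j => ∑ i, z i * s i j)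
    (hfin : ∀ ρ : ℝ, {a : ℤ × (Fin m → ℤ) | rltN p e s A a ≤ ρ}.Finite) (ρ : ℝ) (hρ : 0 ≤ ρ) :
    ρ ^ (m + 1) ≤ (192 : ℝ) ^ (m + 1) * ((m : ℝ) + 1) ^ m * q0 * A * (∏ j, Real.log (p j)) *
      ({x : ℤ × (Fin m → ℤ) | rltN p e s A x ≤ ρ}.ncard : ℝ) := by
  classical
  have hl2 : 0 < Real.log 2 := Real.log_pos (by norm_num)
  have hlp : ∀ j, Real.log 2 ≤ Real.log (p j) := fun j =>
    Real.log_le_log (by norm_num) (by exact_mod_cast (hp j).two_le)
  have hlp0 : ∀ j, 0 < Real.log (p j) := fun j => hl2.trans_le (hlp j)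
  have hA0 : 0 < A := by linarith
  have hm1 : (0 : ℝ) < (m : ℝ) + 1 := by positivity
  set r : ℝ := ρ / 192 with hr
  have hr0 : 0 ≤ r := by rw [hr]; positivity
  obtain ⟨F0, hF0, hF0'⟩ := rlt_int (r / A) (by positivity) 0
  have hF : ∀ (k : ℤ) (j : Fin m), ∃ F : Finset ℤ, r / (((m : ℝ) + 1) * Real.log (p j)) ≤ F.card ∧
      ∀ x ∈ F, |((k * e j + x : ℤ) : ℝ)| ≤ r / (((m : ℝ) + 1) * Real.log (p j)) :=
    fun k j => rlt_int _ (div_nonneg hr0 (mul_nonneg hm1.le (hlp0 j).le)) _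
  choose F hFc hFb using hF
  let B : Finset (Sigma fun _ : ℤ => (Fin m → ℤ)) :=
    F0.sigma (fun k => Fintype.piFinset (F k))
  have hBc : r / A * ∏ j, (r / (((m : ℝ) + 1) * Real.log (p j))) ≤ (B.card : ℝ) := by
    have h1 : B.card = ∑ k ∈ F0, ∏ j, (F k j).card := by
      rw [Finset.card_sigma]
      exact Finset.sum_congr rfl fun k _ => Fintype.card_piFinset _
    rw [h1, Nat.cast_sum]
    have h2 : ∀ k ∈ F0, ∏ j, (r / (((m : ℝ) + 1) * Real.log (p j))) ≤
        ((∏ j, (F k j).card : ℕ) : ℝ) := by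
      intro k _
      rw [Nat.cast_prod]
      exact Finset.prod_le_prod (fun j _ => div_nonneg hr0 (mul_nonneg hm1.le (hlp0 j).le))
        fun j _ => hFc k j
    refine le_trans ?_ (Finset.sum_le_sum h2)
    rw [Finset.sum_const, nsmul_eq_mul]
    exact mul_le_mul_of_nonneg_right hF0 (Finset.prod_nonneg fun j _ =>
      div_nonneg hr0 (mul_nonneg hm1.le (hlp0 j).le))
  -- pigeonhole
  have : Λ.FiniteIndex := ⟨hi⟩
  have : Finite ((Fin m → ℤ) ⧸ Λ) := inferInstance
  have : Fintype ((Fin m → ℤ) ⧸ Λ) := Fintype.ofFinite _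
  have hq : Fintype.card ((Fin m → ℤ) ⧸ Λ) = Λ.index := by
    rw [← Nat.card_eq_fintype_card]
    rfl
  have hcnt : (B.card : ℝ) ≤ q0 * ({x : ℤ × (Fin m → ℤ) | rltN p e s A x ≤ ρ}.ncard : ℝ) := by
    let f : (Sigma fun _ : ℤ => (Fin m → ℤ)) → ((Fin m → ℤ) ⧸ Λ) := fun x =>
      QuotientAddGroup.mk x.2
    have h1 : B.card = ∑ c : ((Fin m → ℤ) ⧸ Λ), (B.filter (fun x => f x = c)).card :=
      Finset.card_eq_sum_card_fiberwise (fun x _ => Finset.mem_univ _)
    have h2 : ∀ c : ((Fin m → ℤ) ⧸ Λ), (B.filter (fun x => f x = c)).card ≤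
        {x : ℤ × (Fin m → ℤ) | rltN p e s A x ≤ ρ}.ncard := by
      intro c
      rcases (B.filter (fun x => f x = c)).eq_empty_or_nonempty with h | ⟨b, hb0⟩
      · rw [h]; simp
      · have hbB := (Finset.mem_filter.1 hb0)
        have h3 : ∀ x ∈ B.filter (fun x => f x = c), ∃ z : Fin m → ℤ,
            x.2 - b.2 = fun j => ∑ i, z i * s i j := by
          intro x hx
          apply hb
          have h4 : f x = f b := by rw [(Finset.mem_filter.1 hx).2, hbB.2]
          have h5 := QuotientAddGroup.eq.1 h4.symm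
          have h6 : -b.2 + x.2 = x.2 - b.2 := by abel
          rw [h6] at h5
          exact h5
        choose! z hz using h3
        let g : (Sigma fun _ : ℤ => (Fin m → ℤ)) → ℤ × (Fin m → ℤ) := fun x => (x.1 - b.1, z x)
        have hgi : Set.InjOn g (B.filter (fun x => f x = c)) := by
          intro x hx y hy hxy
          have h4 := congrArg Prod.fst hxy
          have h5 := congrArg Prod.snd hxy
          simp only [g] at h4 h5
          have h6 : x.2 - b.2 = y.2 - b.2 := by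
            rw [hz x hx, hz y hy, h5]
          have h7 : x.2 = y.2 := by
            have := congrArg (fun v => v + b.2) h6
            simpa using this
          have h8 : x.1 = y.1 := by omega
          obtain ⟨x1, x2⟩ := x
          obtain ⟨y1, y2⟩ := y
          simp only at h7 h8
          subst h7 h8
          rfl
        have hgm : ∀ x ∈ B.filter (fun x => f x = c), rltN p e s A (g x) ≤ ρ := by
          intro x hx
          have hxB := (Finset.mem_sigma.1 (Finset.mem_filter.1 hx).1)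
          have hbB' := (Finset.mem_sigma.1 hbB.1)
          have hx1 := hF0' x.1 hxB.1
          have hb1 := hF0' b.1 hbB'.1
          have hx2 := fun j => hFb x.1 j (x.2 j) (Fintype.mem_piFinset.1 hxB.2 j)
          have hb2 := fun j => hFb b.1 j (b.2 j) (Fintype.mem_piFinset.1 hbB'.2 j)
          unfold rltN
          have hT : ∀ j, rltT e s (g x) j = (x.1 * e j + x.2 j) - (b.1 * e j + b.2 j) := by
            intro j
            unfold rltT
            have h4 := congrFun (hz x hx) j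
            simp only [Pi.sub_apply] at h4
            show (x.1 - b.1) * e j + ∑ i, z x i * s i j = _
            rw [← h4]
            ring
          have h5 : |((g x).1 : ℝ)| ≤ 2 * (r / A) := by
            show |((x.1 - b.1 : ℤ) : ℝ)| ≤ _
            have h6 : ((x.1 - b.1 : ℤ) : ℝ) = ((0 + x.1 : ℤ) : ℝ) - ((0 + b.1 : ℤ) : ℝ) := by
              push_cast; ring
            rw [h6]
            refine (abs_sub _ _).trans ?_
            linarith
          have h6 : ∀ j, |((rltT e s (g x) j : ℤ) : ℝ)| * Real.log (p j) ≤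
              2 * r / ((m : ℝ) + 1) := by
            intro j
            have h7 : |((rltT e s (g x) j : ℤ) : ℝ)| ≤
                2 * (r / (((m : ℝ) + 1) * Real.log (p j))) := by
              rw [hT j]
              have h8 : (((x.1 * e j + x.2 j) - (b.1 * e j + b.2 j) : ℤ) : ℝ) =
                  ((x.1 * e j + x.2 j : ℤ) : ℝ) - ((b.1 * e j + b.2 j : ℤ) : ℝ) := by
                push_cast; ring
              rw [h8]
              refine (abs_sub _ _).trans ?_
              linarith [hx2 j, hb2 j]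
            refine (mul_le_mul_of_nonneg_right h7 (hlp0 j).le).trans (le_of_eq ?_)
            have := (hlp0 j).ne'
            field_simp
          have h7 : ∑ j, |((rltT e s (g x) j : ℤ) : ℝ)| * Real.log (p j) ≤ 2 * r := by
            refine (Finset.sum_le_sum fun j _ => h6 j).trans ?_
            rw [Finset.sum_const, Finset.card_univ, Fintype.card_fin, nsmul_eq_mul,
              mul_div_assoc', div_le_iff₀ hm1]
            nlinarith
          have h8 : A * |((g x).1 : ℝ)| ≤ 2 * r := by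
            refine (mul_le_mul_of_nonneg_left h5 hA0.le).trans (le_of_eq ?_)
            field_simp
          have h9 : ρ = 192 * r := by rw [hr]; ring
          rw [h9]
          nlinarith
        have h4 : ((B.filter (fun x => f x = c)).image g : Set (ℤ × (Fin m → ℤ))) ⊆
            {x : ℤ × (Fin m → ℤ) | rltN p e s A x ≤ ρ} := by
          intro y hy
          obtain ⟨x, hx, rfl⟩ := Finset.mem_image.1 (Finset.mem_coe.1 hy)
          exact hgm x hx
        have h5 := Set.ncard_le_ncard h4 (hfin ρ)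
        rw [Set.ncard_coe_finset, Finset.card_image_of_injOn hgi] at h5
        exact h5
    rw [h1, Nat.cast_sum]
    refine (Finset.sum_le_sum fun c _ => (Nat.cast_le (α := ℝ)).2 (h2 c)).trans ?_
    rw [Finset.sum_const, nsmul_eq_mul, Finset.card_univ, hq]
    exact mul_le_mul_of_nonneg_right (by exact_mod_cast hiq) (Nat.cast_nonneg _)
  have h3 := hBc.trans hcnt
  have h4 : r / A * ∏ j, (r / (((m : ℝ) + 1) * Real.log (p j))) =
      ρ ^ (m + 1) / ((192 : ℝ) ^ (m + 1) * ((m : ℝ) + 1) ^ m * A * ∏ j, Real.log (p j)) := by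
    rw [Finset.prod_div_distrib, Finset.prod_mul_distrib, Finset.prod_const, Finset.prod_const,
      Finset.card_univ, Fintype.card_fin, hr, div_pow]
    have hP : (∏ j, Real.log (p j)) ≠ 0 := Finset.prod_ne_zero_iff.2 fun j _ => (hlp0 j).ne'
    field_simp
    ring
  have hden : 0 < (192 : ℝ) ^ (m + 1) * ((m : ℝ) + 1) ^ m * A * ∏ j, Real.log (p j) := by
    have hP : 0 < (∏ j, Real.log (p j)) := Finset.prod_pos fun j _ => hlp0 j
    positivity
  rw [h4, div_le_iff₀ hden] at h3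
  refine h3.trans (le_of_eq ?_)
  ring

theorem st_RLT (h : ST_RB2) : ST_RLT := by
  refine ⟨1, le_rfl, ?_⟩
  intro m p hpi hp e x0 y0 hx0 hy0 g0 hg htor A S G hA hxA hyA hS heS hG Λ q0 hi hiq
  have hl2 : 0 < Real.log 2 := Real.log_pos (by norm_num)
  have hlp : ∀ j, Real.log 2 ≤ Real.log (p j) := fun j =>
    Real.log_le_log (by norm_num) (by exact_mod_cast (hp j).two_le)
  have hlp0 : ∀ j, 0 < Real.log (p j) := fun j => hl2.trans_le (hlp j)
  obtain ⟨s, hsΛ, hb, hs⟩ := rlt_basis h p hp Λ hi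
  have hLD := rlt_ld p hpi hp e x0 y0 hx0 hy0 g0 hg htor A S G hA hxA hyA hS heS hG s hs
  have hq1 : 1 ≤ q0 := (Nat.one_le_iff_ne_zero.2 hi).trans hiq
  have hP : 0 < (∏ j, Real.log (p j)) := Finset.prod_pos fun j _ => hlp0 j
  have hX : 0 < ((12 : ℝ) ^ 3 * 1) ^ (m + 1) * ((m : ℝ) + 1) ^ m * q0 * A *
      ∏ j, Real.log (p j) := by
    have : (0 : ℝ) < q0 := by exact_mod_cast hq1
    have : 0 < A := by linarith
    positivity
  refine ⟨s, rltN p e s A, ((12 : ℝ) ^ 3 * 1) ^ (m + 1) * ((m : ℝ) + 1) ^ m * q0 * A *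
      ∏ j, Real.log (p j), 0, hsΛ, hLD, hX, rfl, ?_, ?_⟩
  · intro ρ hρ
    refine (rlt_growth p hp e A hA Λ q0 hi hiq s hb hLD.fin ρ hρ).trans ?_
    apply mul_le_mul_of_nonneg_right _ (Nat.cast_nonneg _)
    apply mul_le_mul_of_nonneg_right _ hP.le
    apply mul_le_mul_of_nonneg_right _ (by linarith)
    apply mul_le_mul_of_nonneg_right _ (Nat.cast_nonneg _)
    apply mul_le_mul_of_nonneg_right _ (by positivity)
    exact pow_le_pow_left₀ (by norm_num) (by norm_num) _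
  · unfold rltN
    have h1 : ∑ j, |((rltT e s ((1 : ℤ), (0 : Fin m → ℤ)) j : ℤ) : ℝ)| * Real.log (p j) ≤
        m * S := by
      have h2 : ∀ j, |((rltT e s ((1 : ℤ), (0 : Fin m → ℤ)) j : ℤ) : ℝ)| * Real.log (p j) ≤
          S := by
        intro j
        have h3 : rltT e s ((1 : ℤ), (0 : Fin m → ℤ)) j = e j := by
          unfold rltT
          simp
        rw [h3]
        exact heS j
      refine (Finset.sum_le_sum fun j _ => h2 j).trans ?_
      rw [Finset.sum_const, Finset.card_univ, Fintype.card_fin, nsmul_eq_mul]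
    simp only [Int.cast_one, abs_one]
    nlinarith

end Pool.Helper99.SZ
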